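import Pool.Agent.PXE.Stmts

/-!
# PXE, row PTX: elimination of a variable, or a common zero with one special coordinate
-/

set_option autoImplicit false

namespace Pool.Agent.PXE.H10

open Polynomial
open Pool.Agent.PXE

noncomputable section

variable {D : Type} [CommRing D]

/-- `x_z ↦ X`, `x_i ↦ C x_i` -/
def ptxTh (z : ℕ) : MvPolynomial ℕ D →+* (MvPolynomial ℕ D)[X] :=
  MvPolynomial.eval₂Hom ((C : MvPolynomial ℕ D →+* (MvPolynomial ℕ D)[X]).comp MvPolynomial.C)
    (fun i => if i = z then X else C (MvPolynomial.X i))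

theorem ptxTh_C (z : ℕ) (d : D) : ptxTh z (MvPolynomial.C d) = C (MvPolynomial.C d) := by
  simp [ptxTh]

theorem ptxTh_z (z : ℕ) : ptxTh z (MvPolynomial.X z : MvPolynomial ℕ D) = X := by
  simp [ptxTh]

theorem ptxTh_X {z i : ℕ} (h : i ≠ z) :
    ptxTh z (MvPolynomial.X i : MvPolynomial ℕ D) = C (MvPolynomial.X i) := by
  simp [ptxTh, h]

theorem ptxTh_eval (z : ℕ) (p : MvPolynomial ℕ D) :
    (ptxTh z p).eval (MvPolynomial.X z) = p := by
  have h : (evalRingHom (MvPolynomial.X z : MvPolynomial ℕ D)).comp (ptxTh z) = RingHom.id _ := by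
    apply MvPolynomial.ringHom_ext
    · intro d
      rw [RingHom.comp_apply, ptxTh_C, coe_evalRingHom, eval_C]
      rfl
    · intro i
      by_cases hi : i = z
      · subst hi
        rw [RingHom.comp_apply, ptxTh_z, coe_evalRingHom, eval_X]
        rfl
      · rw [RingHom.comp_apply, ptxTh_X hi, coe_evalRingHom, eval_C]
        rfl
  exact RingHom.congr_fun h p

/-- `x_z ↦ d` -/
def ptxRho (z : ℕ) (d : D) : MvPolynomial ℕ D →+* MvPolynomial ℕ D :=
  (evalRingHom (MvPolynomial.C d)).comp (ptxTh z)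

theorem ptxRho_C (z : ℕ) (d c : D) : ptxRho z d (MvPolynomial.C c) = MvPolynomial.C c := by
  rw [ptxRho, RingHom.comp_apply, ptxTh_C, coe_evalRingHom, eval_C]

theorem ptxRho_z (z : ℕ) (d : D) : ptxRho z d (MvPolynomial.X z) = MvPolynomial.C d := by
  rw [ptxRho, RingHom.comp_apply, ptxTh_z, coe_evalRingHom, eval_X]

theorem ptxRho_X {z i : ℕ} (d : D) (h : i ≠ z) :
    ptxRho z d (MvPolynomial.X i) = MvPolynomial.X i := by
  rw [ptxRho, RingHom.comp_apply, ptxTh_X h, coe_evalRingHom, eval_C]

theorem ptxRho_vars [Nontrivial D] (z : ℕ) (d : D) (p : MvPolynomial ℕ D) :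
    z ∉ (ptxRho z d p).vars := by
  classical
  induction p using MvPolynomial.induction_on with
  | C c =>
    rw [ptxRho_C, MvPolynomial.vars_C]
    exact Finset.notMem_empty z
  | add p q hp hq =>
    rw [map_add]
    intro h
    rcases Finset.mem_union.1 (MvPolynomial.vars_add_subset _ _ h) with h | h
    · exact hp h
    · exact hq h
  | mul_X p i hp =>
    rw [map_mul]
    intro h
    rcases Finset.mem_union.1 (MvPolynomial.vars_mul _ _ h) with h | h
    · exact hp h
    · by_cases hi : i = z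
      · subst hi
        rw [ptxRho_z, MvPolynomial.vars_C] at h
        exact Finset.notMem_empty _ h
      · rw [ptxRho_X d hi, MvPolynomial.vars_X, Finset.mem_singleton] at h
        exact hi h.symm

theorem ptxTh_map (z : ℕ) (d : D) (p : MvPolynomial ℕ D) :
    (ptxTh z p).map (ptxRho z d) = ptxTh z p := by
  have h : (mapRingHom (ptxRho z d)).comp (ptxTh z) = ptxTh z := by
    apply MvPolynomial.ringHom_ext
    · intro c
      rw [RingHom.comp_apply, ptxTh_C, coe_mapRingHom, map_C, ptxRho_C]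
    · intro i
      by_cases hi : i = z
      · subst hi
        rw [RingHom.comp_apply, ptxTh_z, coe_mapRingHom, map_X]
      · rw [RingHom.comp_apply, ptxTh_X hi, coe_mapRingHom, map_C, ptxRho_X d hi]
  exact RingHom.congr_fun h p

theorem ptx : PtxStmt := by
  intro E D _ _ _ _ _ a b z
  obtain ⟨A, hA⟩ : ∃ A, A = (ptxTh z a).map
    (algebraMap (MvPolynomial ℕ D) (FractionRing (MvPolynomial ℕ D))) := ⟨_, rfl⟩
  obtain ⟨B, hB⟩ : ∃ B, B = (ptxTh z b).map
    (algebraMap (MvPolynomial ℕ D) (FractionRing (MvPolynomial ℕ D))) := ⟨_, rfl⟩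
  by_cases hco : IsCoprime A B
  · left
    obtain ⟨U, V, hUV⟩ := hco
    obtain ⟨b1, hb1, h1⟩ := IsLocalization.integerNormalization_spec
      (nonZeroDivisors (MvPolynomial ℕ D)) U
    obtain ⟨b2, hb2, h2⟩ := IsLocalization.integerNormalization_spec
      (nonZeroDivisors (MvPolynomial ℕ D)) V
    obtain ⟨u0, hu0⟩ : ∃ u0, u0 = IsLocalization.integerNormalization
      (nonZeroDivisors (MvPolynomial ℕ D)) U := ⟨_, rfl⟩
    obtain ⟨v0, hv0⟩ : ∃ v0, v0 = IsLocalization.integerNormalization
      (nonZeroDivisors (MvPolynomial ℕ D)) V := ⟨_, rfl⟩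
    rw [← hu0] at h1
    rw [← hv0] at h2
    have hinj : Function.Injective
        (Polynomial.map (algebraMap (MvPolynomial ℕ D) (FractionRing (MvPolynomial ℕ D)))) :=
      Polynomial.map_injective _ (IsFractionRing.injective _ _)
    have hne : (b1 : MvPolynomial ℕ D) * b2 ≠ 0 :=
      mul_ne_zero (nonZeroDivisors.ne_zero hb1) (nonZeroDivisors.ne_zero hb2)
    have key : C (b2 : MvPolynomial ℕ D) * u0 * ptxTh z a + C (b1 : MvPolynomial ℕ D) * v0 *
        ptxTh z b = C ((b1 : MvPolynomial ℕ D) * b2) := by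
      apply hinj
      rw [Polynomial.map_add, Polynomial.map_mul, Polynomial.map_mul, Polynomial.map_mul,
        Polynomial.map_mul, h1, h2, ← hA, ← hB, map_C, map_C, map_C, map_mul]
      rw [Algebra.smul_def, Algebra.smul_def]
      have e1 : algebraMap (MvPolynomial ℕ D) (FractionRing (MvPolynomial ℕ D))[X] b1 =
        C (algebraMap (MvPolynomial ℕ D) (FractionRing (MvPolynomial ℕ D)) b1) := rfl
      have e2 : algebraMap (MvPolynomial ℕ D) (FractionRing (MvPolynomial ℕ D))[X] b2 =
        C (algebraMap (MvPolynomial ℕ D) (FractionRing (MvPolynomial ℕ D)) b2) := rfl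
      rw [e1, e2, C_mul]
      linear_combination C (algebraMap (MvPolynomial ℕ D) (FractionRing (MvPolynomial ℕ D)) b1) *
        C (algebraMap (MvPolynomial ℕ D) (FractionRing (MvPolynomial ℕ D)) b2) * hUV
    obtain ⟨r, hr⟩ : ∃ r, r = (b1 : MvPolynomial ℕ D) * b2 := ⟨_, rfl⟩
    rw [← hr] at key hne
    have hth : ptxTh z r ≠ 0 := by
      intro h
      apply hne
      rw [← ptxTh_eval z r, h, eval_zero]
    -- a value at which `r` does not vanish
    have hd : ∃ d : E, ptxRho z (algebraMap E D d) r ≠ 0 := by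
      classical
      by_contra hcon
      push Not at hcon
      have hfin := (ptxTh z r).roots.toFinset.finite_toSet
      have hsub : Set.range (fun d : E => (MvPolynomial.C (algebraMap E D d) : MvPolynomial ℕ D)) ⊆
          ((ptxTh z r).roots.toFinset : Set (MvPolynomial ℕ D)) := by
        rintro _ ⟨d, rfl⟩
        rw [Finset.mem_coe, Multiset.mem_toFinset, mem_roots hth]
        exact hcon d
      have hfr := hfin.subset hsub
      have hinj2 : Function.Injective
          (fun d : E => (MvPolynomial.C (algebraMap E D d) : MvPolynomial ℕ D)) :=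
        (MvPolynomial.C_injective ℕ D).comp (algebraMap E D).injective
      exact Set.infinite_range_of_injective hinj2 hfr
    obtain ⟨d, hd⟩ := hd
    obtain ⟨ρ, hρ⟩ : ∃ ρ, ρ = ptxRho z (algebraMap E D d) := ⟨_, rfl⟩
    refine ⟨ρ r, ((C (b2 : MvPolynomial ℕ D) * u0).map ρ).eval (MvPolynomial.X z),
      ((C (b1 : MvPolynomial ℕ D) * v0).map ρ).eval (MvPolynomial.X z), ?_, ?_, ?_⟩
    · rw [hρ]
      exact hd
    · rw [hρ]
      exact ptxRho_vars z _ r
    · obtain ⟨u1, hu1⟩ : ∃ u1, u1 = C (b2 : MvPolynomial ℕ D) * u0 := ⟨_, rfl⟩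
      obtain ⟨v1, hv1⟩ : ∃ v1, v1 = C (b1 : MvPolynomial ℕ D) * v0 := ⟨_, rfl⟩
      rw [← hu1, ← hv1] at key ⊢
      have h3 := congrArg (Polynomial.map ρ) key
      rw [Polynomial.map_add, Polynomial.map_mul, Polynomial.map_mul, map_C] at h3
      have h4 : (ptxTh z a).map ρ = ptxTh z a := by rw [hρ, ptxTh_map]
      have h5 : (ptxTh z b).map ρ = ptxTh z b := by rw [hρ, ptxTh_map]
      rw [h4, h5] at h3
      have h6 := congrArg (Polynomial.eval (MvPolynomial.X z)) h3
      rw [eval_add, eval_mul, eval_mul, eval_C, ptxTh_eval, ptxTh_eval] at h6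
      exact h6.symm
  · right
    have h1 := (not_congr (isCoprime_iff_aeval_ne_zero_of_isAlgClosed
      (FractionRing (MvPolynomial ℕ D)) (AlgebraicClosure (FractionRing (MvPolynomial ℕ D)))
      A B)).1 hco
    push Not at h1
    obtain ⟨ξ, hξA, hξB⟩ := h1
    obtain ⟨ι, hι⟩ : ∃ ι : MvPolynomial ℕ D →+*
        AlgebraicClosure (FractionRing (MvPolynomial ℕ D)), ι = (algebraMap
      (FractionRing (MvPolynomial ℕ D)) (AlgebraicClosure (FractionRing (MvPolynomial ℕ D)))).comp
        (algebraMap (MvPolynomial ℕ D) (FractionRing (MvPolynomial ℕ D))) := ⟨_, rfl⟩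
    have hιi : Function.Injective ι := by
      rw [hι, RingHom.coe_comp]
      exact (RingHom.injective _).comp (IsFractionRing.injective _ _)
    have hA' : eval₂ ι ξ (ptxTh z a) = 0 := by
      rw [hA, aeval_def, eval₂_map] at hξA
      rw [hι]
      exact hξA
    have hB' : eval₂ ι ξ (ptxTh z b) = 0 := by
      rw [hB, aeval_def, eval₂_map] at hξB
      rw [hι]
      exact hξB
    refine ⟨AlgebraicClosure (FractionRing (MvPolynomial ℕ D)), inferInstance,
      (ι.comp (MvPolynomial.C.comp (algebraMap E D))).toAlgebra, ?_⟩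
    letI : Algebra E (AlgebraicClosure (FractionRing (MvPolynomial ℕ D))) :=
      (ι.comp (MvPolynomial.C.comp (algebraMap E D))).toAlgebra
    refine ⟨{ toRingHom := ι, commutes' := fun r => rfl },
      { toRingHom := (eval₂RingHom ι ξ).comp (ptxTh z), commutes' := ?_ }, hιi, ?_, ?_, ?_, ?_⟩
    · intro r
      show eval₂ ι ξ (ptxTh z (MvPolynomial.C (algebraMap E D r))) =
        ι (MvPolynomial.C (algebraMap E D r))
      rw [ptxTh_C, eval₂_C]
    · intro d
      show eval₂ ι ξ (ptxTh z (MvPolynomial.C d)) = ι (MvPolynomial.C d)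
      rw [ptxTh_C, eval₂_C]
    · intro i hi
      show eval₂ ι ξ (ptxTh z (MvPolynomial.X i)) = ι (MvPolynomial.X i)
      rw [ptxTh_X hi, eval₂_C]
    · exact hA'
    · exact hB'

end

end Pool.Agent.PXE.H10
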